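import Mathlib
import Pool.Agent.W516.DRDefs
import Pool.Agent.H204R3.SP.Lie

/-!
# Lie algebras of Hodge groups of Shimura curves
-/

set_option autoImplicit false

namespace Pool.Agent.W516.SC

open Module TensorProduct Pool.Agent.H204R3.SP Pool.Agent.W516.DR

section Real

variable {V : Type} [AddCommGroup V] [Module ℝ V]

/-- `h, e, f` is a nonzero `sl_2`-triple, compatible with the euclidean form `Q`: `h` is
symmetric and `f` is the adjoint of `e`. -/
structure Triple (Q : V →ₗ[ℝ] V →ₗ[ℝ] ℝ) (h e f : Module.End ℝ V) : Prop where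
  symm : ∀ u v, Q u v = Q v u
  pos : ∀ v, v ≠ 0 → 0 < Q v v
  ne : h ≠ 0
  he : h * e - e * h = (2 : ℝ) • e
  hf : h * f - f * h = -((2 : ℝ) • f)
  ef : e * f - f * e = h
  hT : ∀ u v, Q (h u) v = Q u (h v)
  eT : ∀ u v, Q (e u) v = Q u (f v)

/-- `z` commutes with `h, e, f` and is skew for `Q`. -/
structure Comp (Q : V →ₗ[ℝ] V →ₗ[ℝ] ℝ) (h e f z : Module.End ℝ V) : Prop where
  ch : z * h = h * z
  ce : z * e = e * z
  cf : z * f = f * z
  skew : ∀ u v, Q (z u) v + Q u (z v) = 0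

/-- Every element of `g` is the sum of a linear combination of `h, e, f` and of an endomorphism
which commutes with `h, e, f` and is skew for `Q`. -/
def Decomposes (Q : V →ₗ[ℝ] V →ₗ[ℝ] ℝ) (h e f : Module.End ℝ V)
    (g : Submodule ℝ (Module.End ℝ V)) : Prop :=
  ∀ x ∈ g, ∃ (a b c : ℝ) (z : Module.End ℝ V), Comp Q h e f z ∧
    x = a • h + b • e + c • f + z

/-- There is a euclidean form `Q` on `V` and an `sl_2`-triple `h, e, f` in `m` compatible with `Q`
such that every element of `g` is the sum of a linear combination of `h, e, f` and of an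
endomorphism which commutes with `h, e, f` and is skew for `Q`. -/
def OneFactor (g m : Submodule ℝ (Module.End ℝ V)) : Prop :=
  ∃ (Q : V →ₗ[ℝ] V →ₗ[ℝ] ℝ) (h e f : Module.End ℝ V), Triple Q h e f ∧
    (h ∈ m ∧ e ∈ m ∧ f ∈ m) ∧ Decomposes Q h e f g

end Real

section Rational

variable {k W : Type} [Field k] [AddCommGroup W] [Module k W]

/-- `𝔪` is a simple Lie algebra of endomorphisms of `W` over `k`: it is closed under the bracket
and has no ideals (subspaces `𝔫` with `[𝔪, 𝔫] ⊆ 𝔫`) besides `0` and `𝔪`. -/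
structure IsSimpleAlg (𝔪 : Submodule k (Module.End k W)) : Prop where
  bracket : ∀ x ∈ 𝔪, ∀ y ∈ 𝔪, x * y - y * x ∈ 𝔪
  ideal : ∀ 𝔫 : Submodule k (Module.End k W), 𝔫 ≤ 𝔪 →
    (∀ x ∈ 𝔪, ∀ y ∈ 𝔫, x * y - y * x ∈ 𝔫) → 𝔫 = ⊥ ∨ 𝔫 = 𝔪

/-- The real span of a space of endomorphisms. -/
def realSpan [Algebra k ℝ] (𝔥 : Submodule k (Module.End k W)) :
    Submodule ℝ (Module.End ℝ (ℝ ⊗[k] W)) :=
  Submodule.span ℝ {X | ∃ x ∈ 𝔥, X = x.baseChange ℝ}

/-- `ℝ ⊗ 𝔥` is the sum of `sl_2(ℝ)`, which is contained in `ℝ ⊗ 𝔪`, and of the Lie algebra of a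
compact group. -/
def OneNoncompactFactor [Algebra k ℝ] (𝔥 𝔪 : Submodule k (Module.End k W)) : Prop :=
  OneFactor (realSpan 𝔥) (realSpan 𝔪)

variable (K : Type) {ν : Type} [Fintype ν] [Field K] [Algebra k ℂ] [Algebra K ℂ]
  (η : ν → (W →ₗ[k] ℂ)) (τ : ℂ)

/-- The de Rham-Betti endomorphisms commute with the elements of `𝔪`. -/
def DegreeTwo (𝔪 : Submodule k (Module.End k W)) : Prop :=
  ∀ P : Module.End k W, IsDeRhamBettiEnd K η P → ∀ x ∈ 𝔪, P * x = x * P

/-- The endomorphism `x` kills all de Rham-Betti classes. -/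
def KillsAll (x : Module.End k W) : Prop :=
  ∀ (r : ℕ) (φ : MultilinearMap k (fun _ : Fin r × Fin 2 => W) k),
    IsDeRhamBettiForm K η τ r φ → Kills x φ

end Rational

end Pool.Agent.W516.SC
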