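import Mathlib
import Pool.Agent.W516.K3.Defs

/-!
# A real Lie algebra with one noncompact factor `sl_2`
-/

set_option autoImplicit false
set_option linter.unusedSectionVars false

namespace Pool.Agent.W516.SC

open Module Pool.Agent.W516.K3

variable {V : Type} [AddCommGroup V] [Module ℝ V] [FiniteDimensional ℝ V]
  (Q : V →ₗ[ℝ] V →ₗ[ℝ] ℝ) (hQs : ∀ u v, Q u v = Q v u) (hQp : ∀ v, v ≠ 0 → 0 < Q v v)

include hQs hQp in
/-- Skew endomorphisms of a euclidean space have purely imaginary eigenvalues. -/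
theorem noRe_of_skew (z : Module.End ℝ V) (hz : ∀ u v, Q (z u) v + Q u (z v) = 0) : NoRe z := by
  intro a c ha v hv
  by_contra hv0
  have h1 := congrArg (fun w => Q w v) hv
  have h2 := congrArg (fun w => Q w (z v)) hv
  simp only [map_add, map_sub, map_smul, LinearMap.add_apply, LinearMap.sub_apply,
    LinearMap.smul_apply, map_zero, LinearMap.zero_apply, smul_eq_mul] at h1 h2
  have h3 := hz (z v) v
  have h4 := hz v v
  have h5 := hz (z v) (z v)
  rw [hQs v (z v)] at h4
  rw [hQs (z v) (z (z v))] at h5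
  have h6 : Q (z v) v = 0 := by linarith
  have h7 : Q (z (z v)) (z v) = 0 := by linarith
  rw [h7, hQs v (z v), h6] at h2
  have h8 : Q (z v) (z v) = 0 := by
    have h9 : a * Q (z v) (z v) = 0 := by linarith
    exact (mul_eq_zero.1 h9).resolve_left ha
  rw [h6] at h1
  have h10 := hQp v hv0
  have h11 : (a ^ 2 + c ^ 2) * Q v v = 0 := by linarith
  have h12 : 0 < a ^ 2 + c ^ 2 := by positivity
  have := mul_pos h12 h10
  linarith

include hQs hQp in
/-- Symmetric endomorphisms of a euclidean space are diagonalizable. -/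
theorem isHyp_of_symm (h : Module.End ℝ V) (hh : ∀ u v, Q (h u) v = Q u (h v)) : IsHyp h := by
  let core : InnerProductSpace.Core ℝ V :=
    { inner := fun u v => Q u v
      conj_inner_symm := fun u v => by simpa using hQs v u
      re_inner_nonneg := fun v => by
        by_cases hv : v = 0
        · subst hv
          simp
        · exact (hQp v hv).le
      add_left := fun u v w => by simp
      smul_left := fun u v r => by simp
      definite := fun v hv => by
        by_contra hv0
        exact (hQp v hv0).ne' hv }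
  let _ : NormedAddCommGroup V := core.toNormedAddCommGroup
  let _ : InnerProductSpace ℝ V := InnerProductSpace.ofCore core.toCore
  have hs : (h : V →ₗ[ℝ] V).IsSymmetric := fun u v => hh u v
  have h1 := hs.orthogonalComplement_iSup_eigenspaces_eq_bot
  exact (Submodule.orthogonal_eq_bot_iff).1 h1

/-- The eigenvectors of `ad x` with a nonzero eigenvalue are nilpotent. -/
theorem nilp_of_ad (x u : Module.End ℝ V) (χ : ℝ) (hχ : χ ≠ 0) (h : x * u - u * x = χ • u) :
    IsNilpotent u := by
  have h1 : ∀ n : ℕ, x * u ^ n - u ^ n * x = ((n : ℝ) * χ) • u ^ n := by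
    intro n
    induction n with
    | zero => simp
    | succ n ih =>
      have h2 : x * u ^ (n + 1) - u ^ (n + 1) * x =
          (x * u ^ n - u ^ n * x) * u + u ^ n * (x * u - u * x) := by
        rw [pow_succ]
        noncomm_ring
      rw [h2, ih, h, smul_mul_assoc, mul_smul_comm, ← pow_succ, ← add_smul]
      congr 1
      push_cast
      ring
  by_contra hn
  let A : Module.End ℝ (Module.End ℝ V) := LinearMap.mulLeft ℝ x - LinearMap.mulRight ℝ x
  have hA : ∀ X, A X = x * X - X * x := fun X => rfl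
  have h2 : ∀ n : ℕ, A.HasEigenvalue ((n : ℝ) * χ) := by
    intro n
    refine Module.End.hasEigenvalue_of_hasEigenvector (x := u ^ n) ⟨?_, ?_⟩
    · rw [Module.End.mem_eigenspace_iff, hA, h1]
    · intro h0
      exact hn ⟨n, h0⟩
  have h3 : Set.Finite {μ | A.HasEigenvalue μ} := Module.End.finite_hasEigenvalue A
  have h4 : Function.Injective (fun n : ℕ => (n : ℝ) * χ) := by
    intro m n hmn
    exact_mod_cast mul_right_cancel₀ hχ hmn
  exact Set.infinite_of_injective_forall_mem h4 h2 h3

/-- A proper subalgebra of the Lie algebra `sl_2` has an eigenvector in `sl_2`. -/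
theorem line (q : Submodule ℝ (ℝ × ℝ × ℝ))
    (hq : ∀ x ∈ q, ∀ y ∈ q, ((x.2.1 * y.2.2 - x.2.2 * y.2.1, 2 * (x.1 * y.2.1 - x.2.1 * y.1),
      -2 * (x.1 * y.2.2 - x.2.2 * y.1)) : ℝ × ℝ × ℝ) ∈ q) (hne : q ≠ ⊤) :
    ∃ p : ℝ × ℝ × ℝ, p ≠ 0 ∧ ∀ x ∈ q, ∃ χ : ℝ, x.2.1 * p.2.2 - x.2.2 * p.2.1 = χ * p.1 ∧
      2 * (x.1 * p.2.1 - x.2.1 * p.1) = χ * p.2.1 ∧
      -2 * (x.1 * p.2.2 - x.2.2 * p.1) = χ * p.2.2 := by
  obtain ⟨φ, hφ0, hφ⟩ := Submodule.exists_le_ker_of_lt_top q (lt_top_iff_ne_top.2 hne)
  by_cases hk : q = LinearMap.ker φ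
  · set α := φ (1, 0, 0) with hα
    set β := φ (0, 1, 0) with hβ
    set γ := φ (0, 0, 1) with hγ
    have hφx : ∀ x : ℝ × ℝ × ℝ, φ x = x.1 * α + x.2.1 * β + x.2.2 * γ := by
      intro x
      have h1 : x = x.1 • ((1, 0, 0) : ℝ × ℝ × ℝ) + x.2.1 • ((0, 1, 0) : ℝ × ℝ × ℝ) +
          x.2.2 • ((0, 0, 1) : ℝ × ℝ × ℝ) := by
        obtain ⟨a, b, c⟩ := x
        simp
      conv_lhs => rw [h1]
      rw [map_add, map_add, map_smul, map_smul, map_smul, smul_eq_mul, smul_eq_mul, smul_eq_mul]
    have hmem : ∀ x : ℝ × ℝ × ℝ, x ∈ q ↔ x.1 * α + x.2.1 * β + x.2.2 * γ = 0 := by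
      intro x
      rw [hk, LinearMap.mem_ker, hφx]
    have hne0 : ¬ (α = 0 ∧ β = 0 ∧ γ = 0) := by
      rintro ⟨h1, h2, h3⟩
      apply hφ0
      refine LinearMap.ext fun x => ?_
      rw [hφx, h1, h2, h3]
      simp
    refine ⟨(α / 2, γ, β), ?_, ?_⟩
    · intro h0
      rw [Prod.ext_iff, Prod.ext_iff] at h0
      obtain ⟨h1, h2, h3⟩ := h0
      simp only [Prod.fst_zero, Prod.snd_zero] at h1 h2 h3
      exact hne0 ⟨by linarith, h3, h2⟩
    · intro x hx
      have hxm := (hmem x).1 hx
      -- the bracket with the elements of `q` is in `q`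
      have hbr : ∀ y ∈ q, (x.2.1 * y.2.2 - x.2.2 * y.2.1) * α +
          2 * (x.1 * y.2.1 - x.2.1 * y.1) * β + -2 * (x.1 * y.2.2 - x.2.2 * y.1) * γ = 0 :=
        fun y hy => (hmem _).1 (hq x hx y hy)
      have e1 := hbr (β, -α, 0) ((hmem _).2 (by simp only; ring))
      have e2 := hbr (γ, 0, -α) ((hmem _).2 (by simp only; ring))
      have e3 := hbr (0, γ, -β) ((hmem _).2 (by simp only; ring))
      simp only at e1 e2 e3 ⊢
      have f1 : x.2.2 * (α ^ 2 + 4 * (β * γ)) = 0 := by linear_combination e1 + 2 * β * hxm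
      have f2 : x.2.1 * (α ^ 2 + 4 * (β * γ)) = 0 := by linear_combination -e2 + 2 * γ * hxm
      have f3 : x.1 * (α ^ 2 + 4 * (β * γ)) = 0 := by linear_combination e3 + α * hxm
      clear_value α β γ
      by_cases h1 : α = 0
      · subst h1
        by_cases h2 : β = 0
        · have h3 : γ ≠ 0 := fun h => hne0 ⟨rfl, h2, h⟩
          subst h2
          have h4 : x.2.2 * γ = 0 := by linarith
          refine ⟨2 * x.1, ?_, ?_, ?_⟩
          · linarith
          · ring
          · ring
        · refine ⟨-2 * x.1, ?_, ?_, ?_⟩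
          · have h5 : (x.2.1 * β - x.2.2 * γ) * β = 0 := by
              linear_combination f2 * 0 + β * hxm - f1 / 2
            have h6 := (mul_eq_zero.1 h5).resolve_right h2
            linarith
          · have h7 : 4 * (x.1 * γ) * β = 0 := by linear_combination f3
            have h8 := (mul_eq_zero.1 h7).resolve_right h2
            linarith
          · ring
      · refine ⟨2 * (x.2.1 * β - x.2.2 * γ) / α, ?_, ?_, ?_⟩
        · field_simp
        · field_simp
          linear_combination 2 * γ * hxm - f2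
        · field_simp
          linear_combination -2 * β * hxm + f1
  · -- dimension at most one
    have hlt : q < LinearMap.ker φ := lt_of_le_of_ne hφ hk
    have h1 := Submodule.finrank_lt_finrank_of_lt hlt
    have h2 : finrank ℝ (LinearMap.ker φ) < 3 := by
      have h3 : LinearMap.ker φ < ⊤ := by
        rw [lt_top_iff_ne_top]
        intro h4
        exact hφ0 (LinearMap.ker_eq_top.1 h4)
      have h5 := Submodule.finrank_lt_finrank_of_lt h3
      rw [finrank_top] at h5
      have h6 : finrank ℝ (ℝ × ℝ × ℝ) = 3 := by simp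
      omega
    have h3 : finrank ℝ q ≤ 1 := by omega
    obtain ⟨v, hv⟩ := finrank_le_one_iff.1 h3
    by_cases hv0 : (v : ℝ × ℝ × ℝ) = 0
    · refine ⟨(1, 0, 0), by simp, fun x hx => ?_⟩
      obtain ⟨c, hc⟩ := hv ⟨x, hx⟩
      have h4 : x = 0 := by
        have h5 := congrArg Subtype.val hc
        simp only [Submodule.coe_smul, hv0, smul_zero] at h5
        exact h5.symm
      subst h4
      exact ⟨0, by simp, by simp, by simp⟩
    · refine ⟨v, hv0, fun x hx => ?_⟩
      obtain ⟨c, hc⟩ := hv ⟨x, hx⟩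
      have h5 : x = c • (v : ℝ × ℝ × ℝ) := by
        have h5 := congrArg Subtype.val hc
        exact h5.symm
      subst h5
      refine ⟨0, ?_, ?_, ?_⟩ <;>
      · simp only [Prod.smul_fst, Prod.smul_snd, smul_eq_mul]
        ring

end Pool.Agent.W516.SC
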