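import Mathlib
import Pool.Agent.W516.SC.Real
import Pool.Agent.W516.SC.Defs

/-!
# The noncompact factor is contained in the Lie algebra
-/

set_option autoImplicit false
set_option linter.unusedSectionVars false

namespace Pool.Agent.W516.SC

open Module Pool.Agent.W516.K3

variable {V : Type} [AddCommGroup V] [Module ℝ V] [FiniteDimensional ℝ V]

variable {Q : V →ₗ[ℝ] V →ₗ[ℝ] ℝ} {h e f : Module.End ℝ V}

theorem Comp.zero : Comp Q h e f 0 := ⟨by simp, by simp, by simp, by simp⟩

theorem Comp.add {y z : Module.End ℝ V} (hy : Comp Q h e f y) (hz : Comp Q h e f z) :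
    Comp Q h e f (y + z) := by
  refine ⟨by rw [add_mul, mul_add, hy.ch, hz.ch], by rw [add_mul, mul_add, hy.ce, hz.ce],
    by rw [add_mul, mul_add, hy.cf, hz.cf], fun u v => ?_⟩
  have h1 := hy.skew u v
  have h2 := hz.skew u v
  simp only [LinearMap.add_apply, map_add]
  linarith

theorem Comp.smul {z : Module.End ℝ V} (c : ℝ) (hz : Comp Q h e f z) :
    Comp Q h e f (c • z) := by
  refine ⟨by rw [smul_mul_assoc, mul_smul_comm, hz.ch], by rw [smul_mul_assoc, mul_smul_comm, hz.ce],
    by rw [smul_mul_assoc, mul_smul_comm, hz.cf], fun u v => ?_⟩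
  have h1 := hz.skew u v
  simp only [LinearMap.smul_apply, map_smul, smul_eq_mul]
  linear_combination c * h1

theorem Comp.br {y z : Module.End ℝ V} (hy : Comp Q h e f y) (hz : Comp Q h e f z) :
    Comp Q h e f (y * z - z * y) := by
  have key : ∀ a : Module.End ℝ V, y * a = a * y → z * a = a * z →
      (y * z - z * y) * a = a * (y * z - z * y) := by
    intro a h1 h2
    rw [sub_mul, mul_sub, mul_assoc, h2, ← mul_assoc, h1, mul_assoc, mul_assoc z, h1, ← mul_assoc z,
      h2, mul_assoc a z]
  refine ⟨key _ hy.ch hz.ch, key _ hy.ce hz.ce, key _ hy.cf hz.cf, fun u v => ?_⟩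
  have h1 := hy.skew (z u) v
  have h2 := hz.skew u (y v)
  have h3 := hz.skew (y u) v
  have h4 := hy.skew u (z v)
  simp only [LinearMap.sub_apply, map_sub, Module.End.mul_apply]
  linarith

variable (T : Triple Q h e f)

include T in
/-- The bracket of two elements of the triple. -/
theorem Triple.br (a b c a' b' c' : ℝ) :
    (a • h + b • e + c • f) * (a' • h + b' • e + c' • f) -
      (a' • h + b' • e + c' • f) * (a • h + b • e + c • f) =
    (b * c' - c * b') • h + (2 * (a * b' - b * a')) • e + (-2 * (a * c' - c * a')) • f := by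
  have h1 : h * e = e * h + (2 : ℝ) • e := by rw [← T.he]; abel
  have h2 : h * f = f * h - (2 : ℝ) • f := by
    rw [sub_eq_add_neg, ← T.hf]; abel
  have h3 : e * f = f * e + h := by
    conv_rhs => rw [← T.ef]
    abel
  simp only [add_mul, mul_add, smul_mul_smul_comm, h1, h2, h3, smul_add, smul_sub, smul_smul]
  module

include T in
theorem Triple.indep (p q r : ℝ) (h0 : p • h + q • e + r • f = 0) : p = 0 ∧ q = 0 ∧ r = 0 := by
  have he0 : e ≠ 0 := by
    intro he
    have h1 := T.ef
    rw [he] at h1
    simp only [zero_mul, mul_zero, sub_zero] at h1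
    exact T.ne h1.symm
  have hf0 : f ≠ 0 := by
    intro he
    have h1 := T.ef
    rw [he] at h1
    simp only [zero_mul, mul_zero, sub_zero] at h1
    exact T.ne h1.symm
  have h1 := T.br 1 0 0 p q r
  rw [h0] at h1
  simp only [mul_zero, zero_mul, sub_self, one_smul, zero_smul, add_zero, one_mul, sub_zero,
    zero_add] at h1
  have h1' : (2 * q) • e + (-2 * r) • f = 0 := h1.symm
  have h2 := T.br 1 0 0 0 (2 * q) (-2 * r)
  have h1'' : (0 : ℝ) • h + (2 * q) • e + (-2 * r) • f = 0 := by rw [zero_smul, zero_add, h1']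
  rw [h1''] at h2
  simp only [mul_zero, zero_mul, sub_self, one_smul, zero_smul, add_zero, one_mul, sub_zero,
    zero_add] at h2
  have h3 : (8 * q) • e = 0 := by
    have h4 : (8 * q) • e = ((2 * (2 * q)) • e + (-2 * (-2 * r)) • f) +
        (2 : ℝ) • ((2 * q) • e + (-2 * r) • f) := by module
    rw [h4, h1', ← h2, smul_zero, add_zero]
  have hq : q = 0 := by
    have h5 := (smul_eq_zero.1 h3).resolve_right he0
    linarith
  have hr : r = 0 := by
    rw [hq, mul_zero, zero_smul, zero_add] at h1'
    have h5 := (smul_eq_zero.1 h1').resolve_right hf0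
    linarith
  refine ⟨?_, hq, hr⟩
  rw [hq, hr, zero_smul, zero_smul, add_zero, add_zero] at h0
  exact (smul_eq_zero.1 h0).resolve_right T.ne

variable (g : Submodule ℝ (Module.End ℝ V))

/-- The projection of the Lie algebra to the triple. -/
def proj (Q : V →ₗ[ℝ] V →ₗ[ℝ] ℝ) (h e f : Module.End ℝ V) (g : Submodule ℝ (Module.End ℝ V)) :
    Submodule ℝ (ℝ × ℝ × ℝ) where
  carrier := {x | ∃ z, Comp Q h e f z ∧ x.1 • h + x.2.1 • e + x.2.2 • f + z ∈ g}
  zero_mem' := ⟨0, Comp.zero, by simp⟩
  add_mem' := by
    rintro x y ⟨z, hz, hx⟩ ⟨z', hz', hy⟩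
    refine ⟨z + z', hz.add hz', ?_⟩
    have h1 : (x + y).1 • h + (x + y).2.1 • e + (x + y).2.2 • f + (z + z') =
        (x.1 • h + x.2.1 • e + x.2.2 • f + z) + (y.1 • h + y.2.1 • e + y.2.2 • f + z') := by
      simp only [Prod.fst_add, Prod.snd_add]
      module
    rw [h1]
    exact g.add_mem hx hy
  smul_mem' := by
    rintro c x ⟨z, hz, hx⟩
    refine ⟨c • z, hz.smul c, ?_⟩
    have h1 : (c • x).1 • h + (c • x).2.1 • e + (c • x).2.2 • f + c • z =
        c • (x.1 • h + x.2.1 • e + x.2.2 • f + z) := by
      simp only [Prod.smul_fst, Prod.smul_snd, smul_eq_mul]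
      module
    rw [h1]
    exact g.smul_mem c hx

theorem br_comp {s z s' z' : Module.End ℝ V} (h1 : z * s' = s' * z) (h2 : z' * s = s * z') :
    (s + z) * (s' + z') - (s' + z') * (s + z) = (s * s' - s' * s) + (z * z' - z' * z) := by
  calc (s + z) * (s' + z') - (s' + z') * (s + z) =
      (s * s' - s' * s) + (z * z' - z' * z) + (z * s' - s' * z) - (z' * s - s * z') := by
        noncomm_ring
    _ = _ := by rw [h1, h2]; abel

theorem br_comp0 {s z s' : Module.End ℝ V} (h1 : z * s' = s' * z) :
    (s + z) * s' - s' * (s + z) = s * s' - s' * s := by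
  rw [add_mul, mul_add, h1]
  abel

theorem comp_comm {z : Module.End ℝ V} (hz : Comp Q h e f z) (a b c : ℝ) :
    z * (a • h + b • e + c • f) = (a • h + b • e + c • f) * z := by
  simp only [mul_add, add_mul, mul_smul_comm, smul_mul_assoc, hz.ch, hz.ce, hz.cf]

include T in
/-- A Lie algebra containing the hyperbolic parts of its elements, which is contained in the sum of
the triple and of compact endomorphisms commuting with it, and which generates the triple as
an associative algebra, contains the triple. -/
theorem triple_mem (hbr : ∀ x ∈ g, ∀ y ∈ g, x * y - y * x ∈ g)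
    (hhyp : ∀ y z : Module.End ℝ V, y + z ∈ g → y * z = z * y → IsHyp y → NoRe z → y ∈ g)
    (hdec : ∀ x ∈ g, ∃ (a b c : ℝ) (z : Module.End ℝ V), Comp Q h e f z ∧
      x = a • h + b • e + c • f + z)
    (hh : h ∈ Algebra.adjoin ℝ (g : Set (Module.End ℝ V)))
    (he : e ∈ Algebra.adjoin ℝ (g : Set (Module.End ℝ V)))
    (hf : f ∈ Algebra.adjoin ℝ (g : Set (Module.End ℝ V))) : h ∈ g ∧ e ∈ g ∧ f ∈ g := by
  by_cases htop : proj Q h e f g = ⊤
  · have hmem : ∀ x : ℝ × ℝ × ℝ, ∃ z, Comp Q h e f z ∧
        x.1 • h + x.2.1 • e + x.2.2 • f + z ∈ g := by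
      intro x
      have : x ∈ proj Q h e f g := by rw [htop]; trivial
      exact this
    have h1 : h ∈ g := by
      obtain ⟨z, hz, hzg⟩ := hmem (1, 0, 0)
      simp only [one_smul, zero_smul, add_zero] at hzg
      exact hhyp h z hzg hz.ch.symm (isHyp_of_symm Q T.symm T.pos h T.hT)
        (noRe_of_skew Q T.symm T.pos z hz.skew)
    refine ⟨h1, ?_, ?_⟩
    · obtain ⟨z, hz, hzg⟩ := hmem (0, 1, 0)
      simp only [one_smul, zero_smul, zero_add, add_zero] at hzg
      have h2 := hbr h h1 _ hzg
      have h3 : h * (e + z) - (e + z) * h = (2 : ℝ) • e := by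
        rw [← T.he, mul_add, add_mul, hz.ch]
        abel
      rw [h3] at h2
      exact (Submodule.smul_mem_iff g two_ne_zero).1 h2
    · obtain ⟨z, hz, hzg⟩ := hmem (0, 0, 1)
      simp only [one_smul, zero_smul, zero_add] at hzg
      have h2 := hbr h h1 _ hzg
      have h3 : h * (f + z) - (f + z) * h = (-2 : ℝ) • f := by
        have h4 : h * (f + z) - (f + z) * h = (h * f - f * h) + (h * z - z * h) := by noncomm_ring
        rw [h4, T.hf, hz.ch, sub_self, add_zero]
        module
      rw [h3] at h2
      exact (Submodule.smul_mem_iff g (by norm_num)).1 h2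
  · exfalso
    obtain ⟨p, hp0, hp⟩ := line (proj Q h e f g) (by
      rintro x ⟨z, hz, hx⟩ y ⟨z', hz', hy⟩
      refine ⟨z * z' - z' * z, hz.br hz', ?_⟩
      have h1 := hbr _ hx _ hy
      rw [br_comp (comp_comm hz _ _ _) (comp_comm hz' _ _ _), T.br] at h1
      exact h1) htop
    set u : Module.End ℝ V := p.1 • h + p.2.1 • e + p.2.2 • f with hu
    clear_value u
    have hu0 : u ≠ 0 := by
      intro h0
      obtain ⟨h1, h2, h3⟩ := T.indep _ _ _ (hu.symm.trans h0)
      exact hp0 (Prod.ext h1 (Prod.ext h2 h3))
    have hux : ∀ x ∈ g, ∃ χ : ℝ, x * u - u * x = χ • u := by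
      intro x hx
      obtain ⟨a, b, c, z, hz, rfl⟩ := hdec x hx
      obtain ⟨χ, h1, h2, h3⟩ := hp (a, b, c) ⟨z, hz, hx⟩
      refine ⟨χ, ?_⟩
      have h4 := br_comp (s := a • h + b • e + c • f) (z := z) (s' := u) (z' := 0)
        (by rw [hu]; exact comp_comm hz _ _ _) (by simp)
      simp only [add_zero, mul_zero, zero_mul, sub_zero] at h4
      rw [h4, hu, T.br]
      simp only at h1 h2 h3
      rw [h1, h2, h3]
      module
    by_cases hcomm : ∀ x ∈ g, x * u = u * x
    · -- `u` commutes with everything
      have h1 : ∀ a ∈ Algebra.adjoin ℝ (g : Set (Module.End ℝ V)), a * u = u * a := by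
        intro a ha
        induction ha using Algebra.adjoin_induction with
        | mem x hx => exact hcomm x hx
        | algebraMap r => exact Algebra.commutes r u
        | add x y _ _ hx hy => rw [add_mul, mul_add, hx, hy]
        | mul x y _ _ hx hy => rw [mul_assoc, hy, ← mul_assoc, hx, mul_assoc]
      have h2 := T.br 1 0 0 p.1 p.2.1 p.2.2
      have h3 := T.br 0 1 0 p.1 p.2.1 p.2.2
      simp only [mul_zero, zero_mul, one_smul, zero_smul, add_zero, one_mul, sub_zero,
        zero_add, sub_self, zero_sub] at h2 h3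
      rw [← hu, h1 h hh, sub_self] at h2
      rw [← hu, h1 e he, sub_self] at h3
      have h4 := T.indep 0 (2 * p.2.1) (-2 * p.2.2) (by rw [zero_smul, zero_add]; exact h2.symm)
      have h5 := T.indep p.2.2 (2 * -p.1) 0 (by rw [zero_smul, add_zero]; exact h3.symm)
      apply hp0
      refine Prod.ext ?_ (Prod.ext ?_ ?_)
      · have := h5.2.1
        simp only [Prod.fst_zero]
        linarith
      · have := h4.2.1
        simp only [Prod.fst_zero, Prod.snd_zero]
        linarith
      · exact h5.1
    · push Not at hcomm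
      obtain ⟨x₀, hx₀, hne⟩ := hcomm
      obtain ⟨χ, hχ⟩ := hux x₀ hx₀
      have hχ0 : χ ≠ 0 := by
        rintro rfl
        rw [zero_smul, sub_eq_zero] at hχ
        exact hne hχ
      have hnil := nilp_of_ad x₀ u χ hχ0 hχ
      -- the kernel of `u` is stable
      have hst : ∀ a ∈ Algebra.adjoin ℝ (g : Set (Module.End ℝ V)), ∀ w, u w = 0 →
          u (a w) = 0 := by
        intro a ha
        induction ha using Algebra.adjoin_induction with
        | mem x hx =>
          intro w hw
          obtain ⟨c, hc⟩ := hux x hx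
          have h1 := congrArg (fun P : Module.End ℝ V => P w) hc
          simp only [LinearMap.sub_apply, Module.End.mul_apply, LinearMap.smul_apply, hw,
            map_zero, smul_zero, zero_sub, neg_eq_zero] at h1
          exact h1
        | algebraMap r =>
          intro w hw
          rw [Module.algebraMap_end_apply, map_smul, hw, smul_zero]
        | add x y _ _ hx hy =>
          intro w hw
          rw [LinearMap.add_apply, map_add, hx w hw, hy w hw, add_zero]
        | mul x y _ _ hx hy =>
          intro w hw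
          rw [Module.End.mul_apply]
          exact hx _ (hy w hw)
      -- the adjoint
      let u' : Module.End ℝ V := p.1 • h + p.2.1 • f + p.2.2 • e
      have hu' : u' ∈ Algebra.adjoin ℝ (g : Set (Module.End ℝ V)) :=
        add_mem (add_mem (Subalgebra.smul_mem _ hh _) (Subalgebra.smul_mem _ hf _))
          (Subalgebra.smul_mem _ he _)
      have hfT : ∀ v w, Q (f v) w = Q v (e w) := by
        intro v w
        rw [T.symm, ← T.eT, T.symm]
      have hadj : ∀ v w, Q (u v) w = Q v (u' w) := by
        intro v w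
        simp only [hu, u', LinearMap.add_apply, LinearMap.smul_apply, map_add, map_smul, T.hT,
          T.eT, hfT]
      have hker : ∀ w, u w = 0 → u' w = 0 := by
        intro w hw
        by_contra h0
        have h1 := hst u' hu' w hw
        have h2 := hadj (u' w) w
        rw [h1, map_zero, LinearMap.zero_apply] at h2
        exact (T.pos _ h0).ne h2
      have hker2 : ∀ w, u (u w) = 0 → u w = 0 := by
        intro w hw
        by_contra h0
        have h1 := hker _ hw
        have h2 := hadj w (u w)
        rw [h1, map_zero] at h2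
        exact (T.pos _ h0).ne' h2
      obtain ⟨n, hn⟩ := hnil
      have h3 : ∀ (n : ℕ) (w : V), (u ^ (n + 1)) w = 0 → u w = 0 := by
        intro n
        induction n with
        | zero => intro w hw; simpa using hw
        | succ n ih =>
          intro w hw
          rw [pow_succ, Module.End.mul_apply] at hw
          exact hker2 w (ih _ hw)
      apply hu0
      refine LinearMap.ext fun w => ?_
      refine h3 n w ?_
      rw [pow_succ, hn, zero_mul, LinearMap.zero_apply]

end Pool.Agent.W516.SC
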