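import Mathlib
import Pool.Agent.W516.BQ.Final
import Pool.Agent.W516.SC.Defs
import Pool.Agent.W516.SC.Triple

/-!
# De Rham-Betti forms and Lie algebras with one noncompact factor
-/

set_option linter.unusedSectionVars false

namespace Pool.Agent.W516.SC

open Module TensorProduct Pool.Agent.H204R3.SP Pool.Agent.H204R3.GP Pool.Agent.W516.DR
  Pool.Agent.W516.KC Pool.Agent.W516.K3 Pool.Agent.W32.DK Pool.Agent.W516.KU Pool.Agent.W516.BQ

noncomputable section

variable {k K : Type} [Field k] [Field K] [CharZero k] [CharZero K] [IsAlgClosed K] [Algebra k K]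
  [Algebra k ℂ] [Algebra K ℂ] [IsScalarTower k K ℂ] [Algebra k ℝ] [IsScalarTower k ℝ ℂ]
  {W : Type} [AddCommGroup W] [Module k W] [FiniteDimensional k W]
  {ι : Type} [Fintype ι] [DecidableEq ι]

/-! ### Real spans -/

section Span

variable (𝔥 : Submodule k (Module.End k W))

theorem realSpan_eq : realSpan 𝔥 = extEnd ℝ (fun P : W →ₗ[k] W => P ∈ 𝔥) := rfl

theorem cmp_mem {x : Module.End ℝ (ℝ ⊗[k] W)} (hx : x ∈ realSpan 𝔥) (lam : ℝ →ₗ[k] k) :
    cmpE lam x ∈ 𝔥 := cmp_of_ext 𝔥 (by rw [realSpan_eq] at hx; exact hx) lam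

theorem mem_of_cmp {x : Module.End ℝ (ℝ ⊗[k] W)} (hx : ∀ lam : ℝ →ₗ[k] k, cmpE lam x ∈ 𝔥) :
    x ∈ realSpan 𝔥 := by
  rw [realSpan_eq]
  exact end_mem_span _ x hx

theorem cmpE_smul (lam : ℝ →ₗ[k] k) (c : ℝ) (x : Module.End ℝ (ℝ ⊗[k] W)) :
    cmpE lam (c • x) = cmpE (lam ∘ₗ LinearMap.mulLeft k c) x := by
  ext w
  rw [cmpE_apply, cmpE_apply, LinearMap.smul_apply, cmp_smul]

theorem cmpE_add (lam : ℝ →ₗ[k] k) (x y : Module.End ℝ (ℝ ⊗[k] W)) :
    cmpE lam (x + y) = cmpE lam x + cmpE lam y := by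
  ext w
  rw [cmpE_apply, LinearMap.add_apply, map_add]
  rfl

/-- The component of a bracket with a rational endomorphism. -/
theorem cmpE_br (lam : ℝ →ₗ[k] k) (x : Module.End ℝ (ℝ ⊗[k] W)) (P : Module.End k W) :
    cmpE lam (P.baseChange ℝ * x - x * P.baseChange ℝ) = P * cmpE lam x - cmpE lam x * P := by
  ext w
  rw [cmpE_apply, LinearMap.sub_apply, map_sub, Module.End.mul_apply, Module.End.mul_apply,
    cmp_baseChange', LinearMap.baseChange_tmul, LinearMap.sub_apply, Module.End.mul_apply,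
    Module.End.mul_apply, cmpE_apply, cmpE_apply]

end Span

variable (ξ : Basis ι ℂ (W →ₗ[k] ℂ)) (𝔥 𝔪 : Submodule k (Module.End k W))

/-- The main theorem for forms of weight zero. -/
theorem kills_main (hle : 𝔪 ≤ 𝔥) (hsim : IsSimpleAlg 𝔪) (hone : OneNoncompactFactor 𝔥 𝔪)
    (hdel : ∀ x : Module.End k W, (∀ (κ : Type) [Fintype κ] [DecidableEq κ]
      (φ : MultilinearMap k (fun _ : κ => W) k), IsDRBForm K (ξ : ι → (W →ₗ[k] ℂ)) φ →
      Kills x φ) → x ∈ 𝔥)
    (hss : DeRhamBettiSemisimple K (ξ : ι → (W →ₗ[k] ℂ)))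
    (hend : ∀ P : Module.End k W, IsDeRhamBettiEnd K (ξ : ι → (W →ₗ[k] ℂ)) P →
      ∀ x ∈ 𝔪, P * x = x * P)
    (S3 : S_KILL)
    {κ : Type} [Fintype κ] [DecidableEq κ]
    (φ : MultilinearMap k (fun _ : κ => W) k) (hφ : IsDRBForm K (ξ : ι → (W →ₗ[k] ℂ)) φ)
    (x : Module.End k W) (hx : x ∈ 𝔪) : Kills x φ := by
  obtain ⟨Q, h, e, f, T, ⟨hh, he, hf⟩, hdec⟩ := hone
  have hh0 := T.ne
  have hW : Nontrivial W := by
    by_contra hW
    rw [not_nontrivial_iff_subsingleton] at hW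
    apply hh0
    refine LinearMap.ext fun v => ?_
    have hv : v = 0 := by
      induction v using TensorProduct.induction_on with
      | zero => rfl
      | add x y hx hy => rw [hx, hy, add_zero]
      | tmul a w => rw [Subsingleton.elim w 0, TensorProduct.tmul_zero]
    rw [hv, map_zero, map_zero]
  set g := gR (K := K) ξ with hg
  -- the components of the elements of `g`
  have hcmp : ∀ y ∈ g, ∀ lam : ℝ →ₗ[k] k, ∀ (κ : Type) [Fintype κ] [DecidableEq κ]
      (φ : MultilinearMap k (fun _ : κ => W) k), IsDRBForm K (ξ : ι → (W →ₗ[k] ℂ)) φ →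
      Kills (cmpE lam y) φ := by
    intro y hy lam κ _ _ φ hφ
    exact (kills_bcm_iff (Module.finBasis k W) φ y).1 (hy κ φ hφ) lam
  have hgh : ∀ y ∈ g, y ∈ realSpan 𝔥 := fun y hy => mem_of_cmp 𝔥 fun lam =>
    hdel _ (hcmp y hy lam)
  have hbr : ∀ x ∈ g, ∀ y ∈ g, x * y - y * x ∈ g := by
    intro x hx y hy κ _ _ φ hφ
    exact kills_bracket (hx κ φ hφ) (hy κ φ hφ)
  have hhyp : ∀ y z : Module.End ℝ (ℝ ⊗[k] W), y + z ∈ g → y * z = z * y → IsHyp y → NoRe z →
      y ∈ g := by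
    intro y z hyz hc hy hz κ _ _ φ hφ
    exact S3 _ κ _ y z hc hy hz (hyz κ φ hφ)
  -- the generated associative algebra
  have hadj : ∀ y ∈ realSpan 𝔪,
      y ∈ Algebra.adjoin ℝ (g : Set (Module.End ℝ (ℝ ⊗[k] W))) := by
    intro y hy
    have h0 : realSpan 𝔪 ≤ Subalgebra.toSubmodule
        (Algebra.adjoin ℝ (g : Set (Module.End ℝ (ℝ ⊗[k] W)))) := by
      unfold realSpan
      rw [Submodule.span_le]
      rintro _ ⟨a, ha, rfl⟩
      have h4 : a ∈ Algebra.adjoin k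
          {Z | ∃ (D : Derivation K ℂ ℂ) (lam : ℂ →ₗ[k] k), Z = Y0 ξ D lam} :=
        mem_of_comm (K := K) ξ hss _ fun P hP => hend P hP a ha
      have h5 := Pool.Agent.W52.KU.T_ADJ k ℝ W _ _ h4
      refine Algebra.adjoin_mono ?_ h5
      rintro _ ⟨_, ⟨D, lam, rfl⟩, rfl⟩
      exact Y0_mem (K := K) ξ D lam
    exact h0 hy
  obtain ⟨h1, h2, h3⟩ := triple_mem T g hbr hhyp (fun y hy => hdec y (hgh y hy)) (hadj _ hh)
    (hadj _ he) (hadj _ hf)
  -- the ideal generated by the components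
  let 𝔫 : Submodule k (Module.End k W) := Submodule.span k
    {P | ∃ (a b c : ℝ) (lam : ℝ →ₗ[k] k), P = cmpE lam (a • h + b • e + c • f)}
  have hnm : 𝔫 ≤ 𝔪 := by
    refine Submodule.span_le.2 ?_
    rintro _ ⟨a, b, c, lam, rfl⟩
    exact cmp_mem 𝔪 (add_mem (add_mem (Submodule.smul_mem _ _ hh) (Submodule.smul_mem _ _ he))
      (Submodule.smul_mem _ _ hf)) lam
  have hid : ∀ x ∈ 𝔪, ∀ y ∈ 𝔫, x * y - y * x ∈ 𝔫 := by
    intro x hx y hy
    induction hy using Submodule.span_induction with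
    | mem y hy =>
      obtain ⟨a, b, c, lam, rfl⟩ := hy
      obtain ⟨a', b', c', z, hz, h5⟩ :=
        hdec (x.baseChange ℝ) (Submodule.subset_span ⟨x, hle hx, rfl⟩)
      have h10 := br_comp0 (s := a' • h + b' • e + c' • f) (z := z)
        (s' := a • h + b • e + c • f) (comp_comm hz _ _ _)
      rw [T.br, ← h5] at h10
      exact Submodule.subset_span ⟨b' * c - c' * b, 2 * (a' * b - b' * a), -2 * (a' * c - c' * a),
        lam, by rw [← h10, cmpE_br]⟩
    | zero => simp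
    | add y y' _ _ hy hy' =>
      have h4 : x * (y + y') - (y + y') * x = (x * y - y * x) + (x * y' - y' * x) := by
        noncomm_ring
      rw [h4]
      exact add_mem hy hy'
    | smul c y _ hy =>
      rw [mul_smul_comm, smul_mul_assoc, ← smul_sub]
      exact Submodule.smul_mem _ _ hy
  have hn0 : 𝔫 ≠ ⊥ := by
    intro h0
    apply hh0
    have h4 : ∀ lam : ℝ →ₗ[k] k, cmpE lam h = 0 := by
      intro lam
      have h5 : cmpE lam h ∈ 𝔫 := Submodule.subset_span ⟨1, 0, 0, lam, by simp⟩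
      rw [h0] at h5
      exact h5
    have h6 : h ∈ realSpan (⊥ : Submodule k (Module.End k W)) :=
      mem_of_cmp _ fun lam => by rw [h4]; exact Submodule.zero_mem _
    unfold realSpan at h6
    have h7 : {X : Module.End ℝ (ℝ ⊗[k] W) | ∃ x ∈ (⊥ : Submodule k (Module.End k W)),
        X = x.baseChange ℝ} ⊆ {0} := by
      rintro _ ⟨x, hx, rfl⟩
      rw [Submodule.mem_bot] at hx
      subst hx
      exact LinearMap.baseChange_zero
    have h8 := Submodule.span_mono (R := ℝ) h7 h6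
    rwa [Submodule.span_zero_singleton, Submodule.mem_bot] at h8
  have hnm' : 𝔫 = 𝔪 := (hsim.ideal 𝔫 hnm hid).resolve_left hn0
  rw [← hnm'] at hx
  induction hx using Submodule.span_induction with
  | mem y hy =>
    obtain ⟨a, b, c, lam, rfl⟩ := hy
    exact hcmp _ (add_mem (add_mem (Submodule.smul_mem _ _ h1) (Submodule.smul_mem _ _ h2))
      (Submodule.smul_mem _ _ h3)) lam κ φ hφ
  | zero =>
    intro v
    refine Finset.sum_eq_zero fun j _ => ?_
    rw [LinearMap.zero_apply]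
    exact φ.map_coord_zero j (Function.update_self _ _ _)
  | add X Y _ _ hX hY =>
    intro v
    have h3 := congrArg₂ (fun x y : k => x + y) (hX v) (hY v)
    simp only [add_zero] at h3
    rw [← h3, ← Finset.sum_add_distrib]
    refine Finset.sum_congr rfl fun j _ => ?_
    rw [LinearMap.add_apply, MultilinearMap.map_update_add]
  | smul c X _ hX =>
    intro v
    rw [← mul_zero c, ← hX v, Finset.mul_sum]
    refine Finset.sum_congr rfl fun j _ => ?_
    rw [LinearMap.smul_apply, MultilinearMap.map_update_smul, smul_eq_mul]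

/-- The theorem for an abelian variety. -/
theorem kills_weight {ν : Type} [Fintype ν] [DecidableEq ν] (η : Basis ν ℂ (W →ₗ[k] ℂ)) {τ : ℂ}
    (hτ : τ ≠ 0) (hle : 𝔪 ≤ 𝔥) (hsim : IsSimpleAlg 𝔪) (hone : OneNoncompactFactor 𝔥 𝔪)
    (hdel : ∀ x : Module.End k W, KillsAll K (η : ν → (W →ₗ[k] ℂ)) τ x → x ∈ 𝔥)
    (hss : DeRhamBettiSemisimple K (η : ν → (W →ₗ[k] ℂ)))
    (hend : DegreeTwo K (η : ν → (W →ₗ[k] ℂ)) 𝔪)
    (r : ℕ) (φ : MultilinearMap k (fun _ : Fin r × Fin 2 => W) k)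
    (hφ : IsDeRhamBettiForm K (η : ν → (W →ₗ[k] ℂ)) τ r φ)
    (x : Module.End k W) (hx : x ∈ 𝔪) : Kills x φ := by
  obtain ⟨s, hs2⟩ := IsAlgClosed.exists_pow_nat_eq τ (n := 2) two_pos
  have hs : s ≠ 0 := by
    rintro rfl
    rw [zero_pow two_ne_zero] at hs2
    exact hτ hs2.symm
  subst hs2
  refine kills_main (K := K) (nrm η s hs) 𝔥 𝔪 hle hsim hone ?_ ((ss_iff η s hs).2 hss)
    (fun P hP => hend P ((end_iff η s hs P).1 hP)) p_kill φ ((form_iff η s hs φ).1 hφ) x hx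
  intro y hy
  exact hdel y fun r φ hφ => hy _ φ ((form_iff η s hs φ).1 hφ)

end

end Pool.Agent.W516.SC
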